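import Pool.Agent.Y942.WH.FinGrp
import Pool.Agent.Y182.WJ.REAL
import Pool.Agent.Y410.WJ.DESC
import Pool.Agent.Y891.WJ.ART

/-!
# MP_2add11_gt: `Wh*(π)` is a subgroup of `Wh(π)` for every finite group `π`

This is Q2 for finite groups. `Wh*` is functorial for all homomorphisms of groups, and for every
group `π` the subgroup of `Wh(π)` generated by the images of `Wh*(A)` under the homomorphisms
`A → π`, `A` finite, is contained in `Wh*(π)`.

Proof. For `π` finite abelian: let `τ ∈ Wh*(π)` be the class of a boundary matrix `B`, `u = det B`, and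
let `ψ_k` be the endomorphism `g ↦ g^k` of `π`, `0 ≤ k < e`, with `e` a multiple of the exponent. All
`(ψ_k)_* τ` are in `Wh*(π)`. At a character `χ` of `π` the product `∏ ψ_k(u)` takes the value
`∏ χ^k(u)`, a resultant with `X^e - 1` and a unit, so `±1`; hence `(∏ ψ_k(u))² = 1`. The class in
`K₁(ℤ[π])` of a matrix of determinant one has finite order (stable range and multiplicativity of
the Mennicke symbol). So `y = ∑ (ψ_k)_* τ` has finite order and `-τ` is the sum of a multiple of `y`
and the `(ψ_k)_* τ`, `k ≠ 1`.

For `π` finite: coverings give transfers `Wh*(π) → Wh*(C)`, `C` cyclic, so for every finite `π`-set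
`X` the product `[ℤX] τ` is in `Wh*(π)`, together with its negative if `X = π / C`. If the
permutation characters of `X` and `Y` are equal there is an integral intertwiner `P` with
`det P ≠ 0`, and `[ℤX] τ - [ℤY] τ` has finite order since `1 + PW` and `1 + WP` have the same class.
By Artin's induction theorem a multiple of `-τ` is, up to torsion, a sum of elements of the form
`± [ℤ(π/C)] τ`.

The theorems on permutation representations and on Artin induction are by helper182, helper410 and
helper891.
-/

set_option autoImplicit false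

namespace Pool.Agent.Results.MP_2add11_gt.FiniteGroups

open Pool.Agent.Y942 Pool.Agent.Y942.WH

theorem t_INT : WJ.S_INT := by
  intro G X _ _ _ _ ρ σ h
  haveI : Fintype G := Fintype.ofFinite G
  exact Pool.Agent.Y410.WJ.t_DESC G X ρ σ (Pool.Agent.Y182.WJ.t_REAL G X ρ σ h)

theorem neg_mem {π : Type} [Group π] [Finite π] {x : Wh π} (hx : x ∈ WhStar π) : -x ∈ WhStar π :=
  neg_mem_finite t_INT Pool.Agent.Y891.WJ.t_ART hx

/-- The set of the elements `f_* x` of `Wh(π)`, where `f : A → π` is a homomorphism, `A` is a finite
group and `x ∈ Wh*(A)`. -/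
def imagesOfFinite (π : Type) [Group π] : Set (Wh π) :=
  {y | ∃ (A : Type) (_ : Group A) (_ : Finite A) (f : A →* π) (x : Wh A),
    x ∈ WhStar A ∧ y = Wh.map f x}

theorem closure_subset (π : Type) [Group π] :
    (AddSubgroup.closure (imagesOfFinite π) : Set (Wh π)) ⊆ WhStar π := by
  intro y hy
  have h1 : y ∈ (AddSubgroup.closure (imagesOfFinite π)).toAddSubmonoid := hy
  rw [AddSubgroup.closure_toAddSubmonoid] at h1
  have h2 : AddSubmonoid.closure (imagesOfFinite π ∪ -imagesOfFinite π) ≤ whM π := by
    rw [AddSubmonoid.closure_le]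
    rintro z (hz | hz)
    · obtain ⟨A, _, _, f, x, hx, rfl⟩ := hz
      exact map_mem f hx
    · obtain ⟨A, _, _, f, x, hx, hxz⟩ := hz
      have e : z = Wh.map f (-x) := by rw [map_neg, ← hxz, neg_neg]
      rw [e]
      exact map_mem f (neg_mem hx)
  exact h2 h1

/-- For every finite group `π`, `Wh*(π)` is a subgroup of `Wh(π)`. For every homomorphism
`f : H → π` of groups, `f_*` maps `Wh*(H)` to `Wh*(π)`. For every group `π`, the subgroup of `Wh(π)`
generated by the images of `Wh*(A)` under all homomorphisms `A → π` from finite groups `A` is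
contained in `Wh*(π)`. -/
theorem result :
    (∀ (π : Type) [Group π] [Finite π], ∃ S : AddSubgroup (Wh π), (S : Set (Wh π)) = WhStar π) ∧
    (∀ (H π : Type) [Group H] [Group π] (f : H →* π) (x : Wh H), x ∈ WhStar H →
      Wh.map f x ∈ WhStar π) ∧
    (∀ (π : Type) [Group π],
      (AddSubgroup.closure (imagesOfFinite π) : Set (Wh π)) ⊆ WhStar π) :=
  ⟨fun π _ _ => ⟨{ whM π with neg_mem' := fun hx => neg_mem hx }, rfl⟩,
    fun _ _ _ _ f _ hx => map_mem f hx, fun π _ => closure_subset π⟩

end Pool.Agent.Results.MP_2add11_gt.FiniteGroups
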