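import Pool.Agent.Y942.WH.Index
import Pool.Agent.Y182.WJ.REAL
import Pool.Agent.Y410.WJ.DESC
import Pool.Agent.Y891.WJ.ART

/-!
# MP_2add11_gt: `Wh*(π)` has full rank in `Wh(π)` if this holds for the cyclic subgroups of `π`

For every finite group `π` such that every element of `Wh(⟨s⟩)` has a positive multiple in
`Wh*(⟨s⟩)`, for every `s ∈ π`, every element of `Wh(π)` has a positive multiple in `Wh*(π)`. The
hypothesis holds at every `s` with `s⁵ = 1`, since `Wh*(C₅) = Wh(C₅)`. So for every finite group of
exponent five every element of `Wh(π)` has a positive multiple in `Wh*(π)`.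
-/

set_option autoImplicit false

namespace Pool.Agent.Results.MP_2add11_gt.FiniteIndex

open Pool.Agent.Y942 Pool.Agent.Y942.WH

theorem t_INT : WJ.S_INT := by
  intro G X _ _ _ _ ρ σ h
  haveI : Fintype G := Fintype.ofFinite G
  exact Pool.Agent.Y410.WJ.t_DESC G X ρ σ (Pool.Agent.Y182.WJ.t_REAL G X ρ σ h)

/-- Every element of `Wh(π)` has a positive multiple in `Wh*(π)`. -/
def FullRank (π : Type) [Group π] : Prop :=
  ∀ x : Wh π, ∃ k : ℕ, 0 < k ∧ k • x ∈ WhStar π

/-- (1) If every element of `Wh(⟨s⟩)` has a positive multiple in `Wh*(⟨s⟩)` for every element `s` of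
the finite group `π`, then every element of `Wh(π)` has a positive multiple in `Wh*(π)`.
(2) This conclusion holds for every finite group of exponent dividing five. -/
theorem result :
    (∀ (π : Type) [Group π] [Finite π], (∀ s : π, FullRank (Subgroup.zpowers s)) → FullRank π) ∧
    (∀ (π : Type) [Group π] [Finite π], (∀ s : π, s ^ 5 = 1) → FullRank π) :=
  ⟨fun π _ _ hC x => multiple_mem t_INT Pool.Agent.Y891.WJ.t_ART hC x,
    fun π _ _ h x => multiple_mem t_INT Pool.Agent.Y891.WJ.t_ART
      (fun s y => ⟨1, one_pos, cyc5 s (h s) _⟩) x⟩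

end Pool.Agent.Results.MP_2add11_gt.FiniteIndex
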