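import Pool.Agent.Y942.WH.All

/-!
# MP_2add11_gt: `Wh*(C₅) = Wh(C₅)`, an infinite cyclic group

`C₅` is the cyclic group of order five. Every element of `Wh(C₅)` is the torsion `τ(K, L)` of a
two-dimensional deformation retract pair, and `Wh(C₅)` is infinite cyclic, generated by the class
`τ` of the unit `1 + s - s³`. So `Wh*(C₅)` is a non-trivial subgroup of `Wh(C₅)`.

For every group `π`, `Wh*(π)` contains `0` and is closed under addition, and for every `s ∈ π` with
`s⁵ = 1` the whole cyclic subgroup generated by the class `τ_s` of `1 + s - s³` lies in `Wh*(π)`. If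
`s` is not in the commutator subgroup of `π`, then `τ_s` has infinite order.
-/

set_option autoImplicit false

namespace Pool.Agent.Results.MP_2add11_gt.WhStarOfC5

open Pool.Agent.Y942.WH

/-- `Wh*(C₅) = Wh(C₅)`, and this group is infinite cyclic, generated by the class of `1 + s - s³`.
For every group `π`, `Wh*(π)` contains `0` and is closed under addition, and it contains all
integer multiples of the class `τ_s` of `1 + s - s³` whenever `s⁵ = 1`; these are non-zero (except
for the multiple by `0`) if `s` is not in the commutator subgroup of `π`. -/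
theorem result :
    WhStar C5 = Set.univ ∧
    (∀ x : Wh C5, ∃! k : ℤ, x = k • tau sg sg_pow) ∧
    (∀ (π : Type) [Group π], (0 : Wh π) ∈ WhStar π ∧
      ∀ x ∈ WhStar π, ∀ y ∈ WhStar π, x + y ∈ WhStar π) ∧
    (∀ (π : Type) [Group π] (s : π) (hs : s ^ 5 = 1),
      (∀ k : ℤ, k • tau s hs ∈ WhStar π) ∧
      (s ∉ commutator π → ∀ k : ℤ, k ≠ 0 → k • tau s hs ≠ 0)) :=
  ⟨whStar_C5, Wh_C5_unique,
    fun _ _ => ⟨zero_mem_whStar, fun _ hx _ hy => whStar_add hx hy⟩,
    fun _ _ s hs => ⟨zsmul_tau_mem s hs, fun h k hk => tau_ne s hs h k hk⟩⟩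

end Pool.Agent.Results.MP_2add11_gt.WhStarOfC5
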